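import Mathlib

set_option autoImplicit false

open Real MeasureTheory Set Filter Topology

namespace Pool.Agent.Results.MP_c62d6e_an.Locality

/-- A `2π`-periodic weight function: non-negative, `2π`-periodic, measurable, with
`0 < ∫_{-π}^{π} W < ∞`. -/
structure IsWeight (W : ℝ → ℝ) : Prop where
  nonneg : ∀ x, 0 ≤ W x
  periodic : ∀ x, W (x + 2 * π) = W x
  measurable : Measurable W
  integrable : IntervalIntegrable W volume (-π) π
  integral_pos : 0 < ∫ θ in (-π)..π, W θ

/-- Real trigonometric polynomials of degree at most `n`. -/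
def IsTrigPoly (n : ℕ) (p : ℝ → ℝ) : Prop :=
  ∃ a b : ℕ → ℝ, ∀ θ, p θ =
    ∑ k ∈ Finset.range (n + 1), (a k * cos (k * θ) + b k * sin (k * θ))

/-- A Chebyshev-type (equal weight) trigonometric quadrature of degree `n` for `W` with `N`
nodes exists. -/
def HasQuadrature (W : ℝ → ℝ) (n N : ℕ) : Prop :=
  ∃ (t : Fin N → ℝ) (w : ℝ), Monotone t ∧ ∀ p : ℝ → ℝ, IsTrigPoly n p →
    ∫ θ in (-π)..π, p θ * W θ = w * ∑ j, p (t j)

/-- `N^{trig}_W(n)`: the least `N` for which a quadrature with `N` nodes exists (`⊤` if none). -/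
noncomputable def nodeCount (W : ℝ → ℝ) (n : ℕ) : ℕ∞ :=
  sInf {N : ℕ∞ | ∃ k : ℕ, N = k ∧ HasQuadrature W n k}

/-- `\bar N^{trig}_W(n)`: the least `N₀` such that for every `N ≥ N₀` a quadrature with exactly
`N` nodes exists (`⊤` if none). -/
noncomputable def nodeCountBar (W : ℝ → ℝ) (n : ℕ) : ℕ∞ :=
  sInf {N : ℕ∞ | ∃ k : ℕ, N = k ∧ ∀ l ≥ k, HasQuadrature W n l}

/-- The equilibrium (arcsine) weight of the arc `{cos θ > 7/8}`. -/
noncomputable def W1 (θ : ℝ) : ℝ := (1 / (2 * π)) * √((1 + cos θ) / (cos θ - 7 / 8))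

lemma W1_nonneg (θ : ℝ) : 0 ≤ W1 θ := by unfold W1; positivity

lemma W1_periodic (θ : ℝ) : W1 (θ + 2 * π) = W1 θ := by
  unfold W1; rw [cos_add_two_pi]

lemma W1_neg (θ : ℝ) : W1 (-θ) = W1 θ := by
  unfold W1; rw [cos_neg]

lemma W1_measurable : Measurable W1 := by
  unfold W1; fun_prop

lemma W1_eq_zero {θ : ℝ} (h : cos θ ≤ 7 / 8) : W1 θ = 0 := by
  unfold W1
  rw [Real.sqrt_eq_zero_of_nonpos, mul_zero]
  apply div_nonpos_of_nonneg_of_nonpos
  · linarith [neg_one_le_cos θ]
  · linarith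

/-- The substitution. -/
noncomputable def f (x : ℝ) : ℝ := 2 * arcsin (x / 4)

lemma cos_f {x : ℝ} (hx : x ∈ Icc (-1 : ℝ) 1) : cos (f x) = 1 - x ^ 2 / 8 := by
  unfold f
  have h1 : (x / 4) ^ 2 ≤ 1 := by
    have : x ^ 2 ≤ 1 := by nlinarith [hx.1, hx.2]
    nlinarith
  rw [cos_two_mul, cos_arcsin, sq_sqrt (by linarith)]
  ring

lemma hasDerivAt_f {x : ℝ} (hx : x ∈ Ioo (-1 : ℝ) 1) :
    HasDerivAt f ((1 / 2) / √(1 - x ^ 2 / 16)) x := by
  unfold f
  have h1 : HasDerivAt (fun y : ℝ => y / 4) (1 / 4) x := by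
    simpa using (hasDerivAt_id x).div_const 4
  have h2 : HasDerivAt arcsin (1 / √(1 - (x / 4) ^ 2)) (x / 4) :=
    hasDerivAt_arcsin (by linarith [hx.1]) (by linarith [hx.2])
  have h3 := (h2.comp x h1).const_mul 2
  have h4 : (x / 4) ^ 2 = x ^ 2 / 16 := by ring
  rw [h4] at h3
  exact h3.congr_deriv (by ring)

lemma f_strictMonoOn : StrictMonoOn f (Icc (-1 : ℝ) 1) := by
  intro x hx y hy hxy
  unfold f
  have : arcsin (x / 4) < arcsin (y / 4) := by
    apply strictMonoOn_arcsin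
    · constructor <;> linarith [hx.1, hx.2]
    · constructor <;> linarith [hy.1, hy.2]
    · linarith
  linarith

lemma image_f : f '' (Ioo (-1 : ℝ) 1) = {θ | θ ∈ Ioo (-π) π ∧ 7 / 8 < cos θ} := by
  ext θ
  constructor
  · rintro ⟨x, hx, rfl⟩
    refine ⟨?_, ?_⟩
    · unfold f
      have h1 : -(π / 2) < arcsin (x / 4) := neg_pi_div_two_lt_arcsin.mpr (by linarith [hx.1])
      have h2 : arcsin (x / 4) < π / 2 := arcsin_lt_pi_div_two.mpr (by linarith [hx.2])
      constructor <;> linarith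
    · rw [cos_f ⟨hx.1.le, hx.2.le⟩]
      have : x ^ 2 < 1 := by nlinarith [hx.1, hx.2]
      linarith
  · rintro ⟨h1, h2⟩
    have h3 : sin (θ / 2) ^ 2 < 1 / 16 := by
      have h4 : cos θ = 1 - 2 * sin (θ / 2) ^ 2 := by
        have := cos_two_mul (θ / 2)
        rw [show 2 * (θ / 2) = θ by ring] at this
        rw [this, cos_sq']
        ring
      rw [h4] at h2
      linarith
    have h5 : |sin (θ / 2)| < 1 / 4 := by
      rw [← sq_lt_sq₀ (abs_nonneg _) (by norm_num), sq_abs]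
      norm_num
      linarith
    rw [abs_lt] at h5
    refine ⟨4 * sin (θ / 2), ⟨by linarith [h5.1], by linarith [h5.2]⟩, ?_⟩
    unfold f
    rw [show 4 * sin (θ / 2) / 4 = sin (θ / 2) by ring, arcsin_sin]
    · ring
    · linarith [h1.1]
    · linarith [h1.2]

lemma W1_f {x : ℝ} (hx : x ∈ Ioo (-1 : ℝ) 1) :
    ((1 / 2) / √(1 - x ^ 2 / 16)) * W1 (f x) = (1 / π) * √((1 - x ^ 2)⁻¹) := by
  unfold W1
  have hx2 : x ^ 2 < 1 := by nlinarith [hx.1, hx.2]
  rw [cos_f ⟨hx.1.le, hx.2.le⟩]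
  have h1 : (1 + (1 - x ^ 2 / 8)) / (1 - x ^ 2 / 8 - 7 / 8) =
      (4 : ℝ) ^ 2 * (1 - x ^ 2 / 16) * (1 - x ^ 2)⁻¹ := by
    have : (1 : ℝ) - x ^ 2 ≠ 0 := by linarith
    have h2 : 1 - x ^ 2 / 8 - 7 / 8 = (1 - x ^ 2) / 8 := by ring
    rw [h2]
    field_simp
    ring
  rw [h1, Real.sqrt_mul (by nlinarith), Real.sqrt_mul (by norm_num), Real.sqrt_sq (by norm_num)]
  have h3 : √(1 - x ^ 2 / 16) ≠ 0 := (Real.sqrt_pos.mpr (by linarith)).ne'
  have h4 := pi_pos.ne'
  generalize √(1 - x ^ 2 / 16) = A at *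
  generalize √((1 - x ^ 2)⁻¹) = B at *
  field_simp
  ring

/-- Change of variables. -/
lemma integral_W1 (p : ℝ → ℝ) :
    ∫ θ in (-π)..π, p θ * W1 θ = (1 / π) * ∫ x, p (f x) ∂Polynomial.Chebyshev.measureT := by
  have hpi := pi_pos
  rw [intervalIntegral.integral_of_le (by linarith)]
  have h1 : ∫ θ in Ioc (-π) π, p θ * W1 θ = ∫ θ in f '' (Ioo (-1 : ℝ) 1), p θ * W1 θ := by
    apply setIntegral_eq_of_subset_of_forall_sdiff_eq_zero measurableSet_Ioc
    · rw [image_f]
      rintro θ ⟨h, -⟩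
      exact ⟨h.1, h.2.le⟩
    · rintro θ ⟨h, h'⟩
      rw [image_f] at h'
      by_cases hc : 7 / 8 < cos θ
      · exfalso
        apply h'
        refine ⟨⟨h.1, lt_of_le_of_ne h.2 ?_⟩, hc⟩
        rintro rfl
        rw [cos_pi] at hc
        linarith
      · rw [W1_eq_zero (not_lt.mp hc), mul_zero]
  rw [h1, integral_image_eq_integral_abs_deriv_smul measurableSet_Ioo
    (fun x hx => (hasDerivAt_f hx).hasDerivWithinAt)
    (f_strictMonoOn.injOn.mono Ioo_subset_Icc_self)]
  rw [Polynomial.Chebyshev.integral_measureT, intervalIntegral.integral_of_le (by norm_num),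
    integral_Ioc_eq_integral_Ioo, ← integral_const_mul]
  apply setIntegral_congr_fun measurableSet_Ioo
  intro x hx
  have h2 := W1_f hx
  have h3 : 0 ≤ (1 / 2) / √(1 - x ^ 2 / 16) := by positivity
  simp only [smul_eq_mul, abs_of_nonneg h3]
  calc (1 / 2) / √(1 - x ^ 2 / 16) * (p (f x) * W1 (f x))
      = p (f x) * ((1 / 2) / √(1 - x ^ 2 / 16) * W1 (f x)) := by ring
    _ = p (f x) * ((1 / π) * √((1 - x ^ 2)⁻¹)) := by rw [h2]
    _ = _ := by ring

lemma W1_integrable : IntervalIntegrable W1 volume (-π) π := by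
  have hpi := pi_pos
  rw [intervalIntegrable_iff_integrableOn_Ioc_of_le (by linarith)]
  have h1 : IntegrableOn W1 (f '' (Ioo (-1 : ℝ) 1)) := by
    rw [integrableOn_image_iff_integrableOn_abs_deriv_smul measurableSet_Ioo
      (fun x hx => (hasDerivAt_f hx).hasDerivWithinAt)
      (f_strictMonoOn.injOn.mono Ioo_subset_Icc_self)]
    have h2 := (Polynomial.Chebyshev.intervalIntegrable_sqrt_one_sub_sq_inv.const_mul (1 / π))
    rw [intervalIntegrable_iff_integrableOn_Ioo_of_le (by norm_num)] at h2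
    refine h2.congr_fun ?_ measurableSet_Ioo
    intro x hx
    have h3 : 0 ≤ (1 / 2) / √(1 - x ^ 2 / 16) := by positivity
    simp only [smul_eq_mul, abs_of_nonneg h3]
    rw [W1_f hx]
  refine h1.of_forall_sdiff_eq_zero measurableSet_Ioc ?_
  rintro θ ⟨h, h'⟩
  rw [image_f] at h'
  by_cases hc : 7 / 8 < cos θ
  · exfalso
    apply h'
    refine ⟨⟨h.1, lt_of_le_of_ne h.2 ?_⟩, hc⟩
    rintro rfl
    rw [cos_pi] at hc
    linarith
  · exact W1_eq_zero (not_lt.mp hc)

lemma integral_W1_one : ∫ θ in (-π)..π, W1 θ = 1 := by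
  have h := integral_W1 (fun _ => 1)
  simp only [one_mul] at h
  rw [h]
  have h2 := Polynomial.Chebyshev.integral_eval_T_real_measureT_zero
  simp only [Polynomial.Chebyshev.T_zero, Polynomial.eval_one] at h2
  rw [h2]
  field_simp

lemma f_neg (x : ℝ) : f (-x) = -f x := by
  unfold f
  rw [neg_div, arcsin_neg]
  ring

/-- The polynomial in `x` obtained from an even trigonometric polynomial. -/
noncomputable def Q (a : ℕ → ℝ) (n : ℕ) : Polynomial ℝ :=
  ∑ k ∈ Finset.range (n + 1), (a k) •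
    (Polynomial.Chebyshev.T ℝ k).comp (1 - Polynomial.C (1 / 8) * Polynomial.X ^ 2)

lemma Q_eval (a : ℕ → ℝ) (n : ℕ) {x : ℝ} (hx : x ∈ Icc (-1 : ℝ) 1) :
    (Q a n).eval x = ∑ k ∈ Finset.range (n + 1), a k * cos (k * f x) := by
  unfold Q
  rw [Polynomial.eval_finsetSum]
  apply Finset.sum_congr rfl
  intro k _
  rw [Polynomial.eval_smul, Polynomial.eval_comp]
  have h1 : Polynomial.eval x (1 - Polynomial.C (1 / 8) * Polynomial.X ^ 2 : Polynomial ℝ) =
      cos (f x) := by
    rw [cos_f hx]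
    simp
    ring
  rw [h1, Polynomial.Chebyshev.T_real_cos]
  simp

lemma Q_degree (a : ℕ → ℝ) {n N : ℕ} (hN : n < N) : (Q a n).degree < 2 * N := by
  have h1 : (Q a n).natDegree ≤ 2 * n := by
    unfold Q
    apply Polynomial.natDegree_sum_le_of_forall_le
    intro k hk
    refine (Polynomial.natDegree_smul_le _ _).trans ?_
    refine Polynomial.natDegree_comp_le.trans ?_
    rw [Polynomial.Chebyshev.natDegree_T]
    have h2 : (1 - Polynomial.C (1 / 8) * Polynomial.X ^ 2 : Polynomial ℝ).natDegree ≤ 2 := by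
      compute_degree
    have h3 : k ≤ n := by
      have := Finset.mem_range.mp hk
      omega
    calc (k : ℤ).natAbs * _ ≤ k * 2 := Nat.mul_le_mul (by simp) h2
      _ ≤ 2 * n := by omega
  calc (Q a n).degree ≤ ((Q a n).natDegree : WithBot ℕ) := Polynomial.degree_le_natDegree
    _ ≤ ((2 * n : ℕ) : WithBot ℕ) := by exact_mod_cast h1
    _ < ((2 * N : ℕ) : WithBot ℕ) := by
        rw [Nat.cast_lt]; omega
    _ = 2 * N := by push_cast; rfl

lemma integral_even (a : ℕ → ℝ) {n N : ℕ} (hN : n < N) :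
    ∫ θ in (-π)..π, (∑ k ∈ Finset.range (n + 1), a k * cos (k * θ)) * W1 θ =
      (1 / N) * ∑ i ∈ Finset.range N,
        ∑ k ∈ Finset.range (n + 1), a k * cos (k * f (cos ((2 * i + 1) / (2 * N) * π))) := by
  rw [integral_W1]
  have h1 : ∫ x, (∑ k ∈ Finset.range (n + 1), a k * cos (k * f x))
      ∂Polynomial.Chebyshev.measureT = ∫ x, (Q a n).eval x ∂Polynomial.Chebyshev.measureT := by
    rw [Polynomial.Chebyshev.integral_measureT, Polynomial.Chebyshev.integral_measureT]
    apply intervalIntegral.integral_congr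
    intro x hx
    rw [uIcc_of_le (by norm_num)] at hx
    simp only
    rw [Q_eval a n hx]
  rw [h1, Polynomial.Chebyshev.integral_eq_sumZeroes (by omega) (Q_degree a hN),
    Polynomial.Chebyshev.sumZeroes]
  have h2 : ∀ i ∈ Finset.range N, (Q a n).eval (cos ((2 * i + 1) / (2 * N) * π)) =
      ∑ k ∈ Finset.range (n + 1), a k * cos (k * f (cos ((2 * i + 1) / (2 * N) * π))) := by
    intro i _
    rw [Q_eval a n ⟨neg_one_le_cos _, cos_le_one _⟩]
  rw [Finset.sum_congr rfl h2, ← mul_assoc]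
  congr 1
  have := pi_pos
  field_simp

lemma integral_odd (b : ℕ → ℝ) (n : ℕ) :
    ∫ θ in (-π)..π, (∑ k ∈ Finset.range (n + 1), b k * sin (k * θ)) * W1 θ = 0 := by
  have h := intervalIntegral.integral_comp_neg (a := -π) (b := π)
    (fun θ => (∑ k ∈ Finset.range (n + 1), b k * sin (k * θ)) * W1 θ)
  rw [neg_neg] at h
  have h2 : ∀ θ : ℝ, (∑ k ∈ Finset.range (n + 1), b k * sin (k * -θ)) * W1 (-θ) =
      -((∑ k ∈ Finset.range (n + 1), b k * sin (k * θ)) * W1 θ) := by
    intro θ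
    rw [W1_neg, ← neg_mul, ← Finset.sum_neg_distrib]
    congr 1
    apply Finset.sum_congr rfl
    intro k _
    rw [mul_neg, sin_neg]
    ring
  simp only [h2] at h
  rw [intervalIntegral.integral_neg] at h
  linarith

/-- The nodes. -/
noncomputable def node (N : ℕ) (i : Fin N) : ℝ := f (-cos ((2 * (i : ℕ) + 1) / (2 * N) * π))

lemma node_monotone (N : ℕ) : Monotone (node N) := by
  intro i j hij
  unfold node
  have hN : 0 < (N : ℝ) := by
    have := i.2
    exact_mod_cast (by omega : 0 < N)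
  apply f_strictMonoOn.monotoneOn
  · constructor <;> linarith [neg_one_le_cos ((2 * ((i : ℕ) : ℝ) + 1) / (2 * N) * π),
      cos_le_one ((2 * ((i : ℕ) : ℝ) + 1) / (2 * N) * π)]
  · constructor <;> linarith [neg_one_le_cos ((2 * ((j : ℕ) : ℝ) + 1) / (2 * N) * π),
      cos_le_one ((2 * ((j : ℕ) : ℝ) + 1) / (2 * N) * π)]
  · apply neg_le_neg
    have hij' : ((i : ℕ) : ℝ) ≤ ((j : ℕ) : ℝ) := by exact_mod_cast hij
    have hpi := pi_pos
    apply cos_le_cos_of_nonneg_of_le_pi
    · positivity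
    · have hj : ((j : ℕ) : ℝ) + 1 ≤ N := by exact_mod_cast j.2
      have : (2 * ((j : ℕ) : ℝ) + 1) / (2 * N) ≤ 1 := by
        rw [div_le_one (by positivity)]
        linarith
      nlinarith
    · apply mul_le_mul_of_nonneg_right _ hpi.le
      apply div_le_div_of_nonneg_right _ (by positivity)
      linarith

lemma node_rev (N : ℕ) (i : Fin N) : node N (Fin.rev i) = -node N i := by
  unfold node
  rw [← f_neg, neg_neg]
  congr 1
  have hN : (N : ℝ) ≠ 0 := by
    have := i.2
    exact_mod_cast (by omega : N ≠ 0)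
  have h1 : ((Fin.rev i : ℕ) : ℝ) = N - 1 - (i : ℕ) := by
    rw [Fin.val_rev]
    have := i.2
    rw [Nat.cast_sub (by omega)]
    push_cast
    ring
  rw [h1]
  have h2 : (2 * ((N : ℝ) - 1 - (i : ℕ)) + 1) / (2 * N) * π =
      π - (2 * ((i : ℕ) : ℝ) + 1) / (2 * N) * π := by
    field_simp
    ring
  rw [h2, cos_pi_sub, neg_neg]

lemma hasQuadrature_W1 {n N : ℕ} (hN : n < N) : HasQuadrature W1 n N := by
  refine ⟨node N, 1 / N, node_monotone N, ?_⟩
  rintro p ⟨a, b, hp⟩
  have e1 : ∀ θ, p θ * W1 θ = (∑ k ∈ Finset.range (n + 1), a k * cos (k * θ)) * W1 θ +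
      (∑ k ∈ Finset.range (n + 1), b k * sin (k * θ)) * W1 θ := by
    intro θ
    rw [hp, Finset.sum_add_distrib, add_mul]
  simp only [e1]
  rw [intervalIntegral.integral_add, integral_even a hN, integral_odd, add_zero]
  · congr 1
    have e2 : ∀ i : Fin N, p (node N i) =
        (∑ k ∈ Finset.range (n + 1), a k * cos (k * f (cos ((2 * ((i : ℕ) : ℝ) + 1) / (2 * N) * π))))
        + ∑ k ∈ Finset.range (n + 1), b k * sin (k * node N i) := by
      intro i
      rw [hp, Finset.sum_add_distrib]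
      congr 1
      apply Finset.sum_congr rfl
      intro k _
      unfold node
      rw [f_neg, mul_neg, cos_neg]
    simp only [e2]
    rw [Finset.sum_add_distrib, ← Fin.sum_univ_eq_sum_range (fun i : ℕ =>
      ∑ k ∈ Finset.range (n + 1), a k * cos (k * f (cos ((2 * (i : ℝ) + 1) / (2 * N) * π))))]
    have e3 : ∑ i : Fin N, ∑ k ∈ Finset.range (n + 1), b k * sin (k * node N i) = 0 := by
      have h1 := Equiv.sum_comp Fin.revPerm
        (fun i : Fin N => ∑ k ∈ Finset.range (n + 1), b k * sin (k * node N i))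
      simp only [Fin.revPerm_apply, node_rev, mul_neg, sin_neg, Finset.sum_neg_distrib] at h1
      linarith
    rw [e3, add_zero]
  · exact W1_integrable.continuousOn_mul (by fun_prop)
  · exact W1_integrable.continuousOn_mul (by fun_prop)

/-- The second weight: `√2` times the first one, shifted to the opposite arc. -/
noncomputable def W2 (θ : ℝ) : ℝ := √2 * W1 (θ + π)

/-- The glued weight. -/
noncomputable def W3 (θ : ℝ) : ℝ := W1 θ + W2 θ

lemma IsTrigPoly.periodic {n : ℕ} {p : ℝ → ℝ} (hp : IsTrigPoly n p) :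
    Function.Periodic p (2 * π) := by
  obtain ⟨a, b, hp⟩ := hp
  intro θ
  rw [hp, hp]
  apply Finset.sum_congr rfl
  intro k _
  have : (k : ℝ) * (θ + 2 * π) = k * θ + k * (2 * π) := by ring
  rw [this, cos_add_nat_mul_two_pi, sin_add_nat_mul_two_pi]

lemma IsTrigPoly.shift {n : ℕ} {p : ℝ → ℝ} (hp : IsTrigPoly n p) :
    IsTrigPoly n (fun θ => p (θ - π)) := by
  obtain ⟨a, b, hp⟩ := hp
  refine ⟨fun k => (-1) ^ k * a k, fun k => (-1) ^ k * b k, fun θ => ?_⟩
  simp only [hp]
  apply Finset.sum_congr rfl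
  intro k _
  have : (k : ℝ) * (θ - π) = k * θ - k * π := by ring
  rw [this, cos_sub_nat_mul_pi, sin_sub_nat_mul_pi]
  ring

lemma W1_periodic' : Function.Periodic W1 (2 * π) := W1_periodic

/-- Shifting the integration variable. -/
lemma integral_shift {g : ℝ → ℝ} (hg : Function.Periodic g (2 * π)) :
    ∫ θ in (-π)..π, g θ * W1 (θ + π) = ∫ θ in (-π)..π, g (θ - π) * W1 θ := by
  have h1 : Function.Periodic (fun θ => g (θ - π) * W1 θ) (2 * π) := by
    intro θ
    have e1 : θ + 2 * π - π = (θ - π) + 2 * π := by ring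
    simp only [W1_periodic θ, e1, hg (θ - π)]
  have h2 := h1.intervalIntegral_add_eq 0 (-π)
  have h3 := intervalIntegral.integral_comp_add_right (a := -π) (b := π)
    (fun θ => g (θ - π) * W1 θ) π
  simp only [add_sub_cancel_right] at h3
  rw [h3]
  have e2 : -π + π = 0 := by ring
  have e3 : π + π = 0 + 2 * π := by ring
  have e4 : -π + 2 * π = π := by ring
  rw [e2, e3, h2, e4]

lemma hasQuadrature_W2 {n N : ℕ} (hN : n < N) : HasQuadrature W2 n N := by
  obtain ⟨t, w, ht, hq⟩ := hasQuadrature_W1 hN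
  refine ⟨fun j => t j - π, √2 * w, fun i j hij => sub_le_sub_right (ht hij) π, ?_⟩
  intro p hp
  have e1 : ∀ θ, p θ * W2 θ = √2 * (p θ * W1 (θ + π)) := by
    intro θ; unfold W2; ring
  simp only [e1]
  rw [intervalIntegral.integral_const_mul, integral_shift hp.periodic, hq _ hp.shift]
  ring

lemma W2_integrable : IntervalIntegrable W2 volume (-π) π := by
  unfold W2
  apply IntervalIntegrable.const_mul
  have h1 := W1_periodic'.intervalIntegrable (t := -π) two_pi_pos.ne'
    (by rw [show -π + 2 * π = π by ring]; exact W1_integrable) (-π + π) (π + π)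
  simpa using h1.comp_add_right π

lemma integral_W2_one : ∫ θ in (-π)..π, W2 θ = √2 := by
  have h := integral_shift (g := fun _ => 1) (fun _ => rfl)
  simp only [one_mul] at h
  unfold W2
  rw [intervalIntegral.integral_const_mul, h, integral_W1_one, mul_one]

lemma isWeight_W1 : IsWeight W1 :=
  ⟨W1_nonneg, W1_periodic, W1_measurable, W1_integrable, by rw [integral_W1_one]; norm_num⟩

lemma isWeight_W2 : IsWeight W2 := by
  refine ⟨fun x => mul_nonneg (sqrt_nonneg _) (W1_nonneg _), fun x => ?_, ?_, W2_integrable, ?_⟩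
  · unfold W2
    rw [show x + 2 * π + π = (x + π) + 2 * π by ring, W1_periodic]
  · exact (W1_measurable.comp (measurable_id.add_const π)).const_mul _
  · rw [integral_W2_one]; positivity

lemma integral_W3 (g : ℝ → ℝ) (hg : Continuous g) (hper : Function.Periodic g (2 * π)) :
    ∫ θ in (-π)..π, g θ * W3 θ =
      (∫ θ in (-π)..π, g θ * W1 θ) + √2 * ∫ θ in (-π)..π, g (θ - π) * W1 θ := by
  have e1 : ∀ θ, g θ * W3 θ = g θ * W1 θ + g θ * W2 θ := by
    intro θ; unfold W3; ring
  simp only [e1]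
  rw [intervalIntegral.integral_add (W1_integrable.continuousOn_mul hg.continuousOn)
    (W2_integrable.continuousOn_mul hg.continuousOn)]
  congr 1
  have e2 : ∀ θ, g θ * W2 θ = √2 * (g θ * W1 (θ + π)) := by
    intro θ; unfold W2; ring
  simp only [e2]
  rw [intervalIntegral.integral_const_mul, integral_shift hper]

lemma integral_W3_one : ∫ θ in (-π)..π, W3 θ = 1 + √2 := by
  have h := integral_W3 (fun _ => 1) continuous_const (fun _ => rfl)
  simp only [one_mul] at h
  rw [h, integral_W1_one, mul_one]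

lemma isWeight_W3 : IsWeight W3 := by
  refine ⟨fun x => add_nonneg (W1_nonneg _) (isWeight_W2.nonneg _), fun x => ?_,
    W1_measurable.add isWeight_W2.measurable, W1_integrable.add W2_integrable, ?_⟩
  · unfold W3
    rw [W1_periodic, isWeight_W2.periodic]
  · rw [integral_W3_one]; positivity

lemma W3_local (x : ℝ) : (∀ᶠ y in 𝓝 x, W3 y = W1 y) ∨ (∀ᶠ y in 𝓝 x, W3 y = W2 y) := by
  rcases lt_or_ge (cos x) (7 / 8) with h | h
  · right
    have h1 : ∀ᶠ y in 𝓝 x, cos y < 7 / 8 := continuous_cos.continuousAt.eventually_lt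
      continuousAt_const h
    filter_upwards [h1] with y hy
    unfold W3
    rw [W1_eq_zero hy.le, zero_add]
  · left
    have h1 : ∀ᶠ y in 𝓝 x, 0 < cos y := continuousAt_const.eventually_lt
      continuous_cos.continuousAt (by linarith)
    filter_upwards [h1] with y hy
    unfold W3 W2
    rw [W1_eq_zero (θ := y + π) (by rw [cos_add_pi]; linarith), mul_zero, add_zero]

/-- Polynomials in `cos θ` are trigonometric polynomials. -/
lemma isTrigPoly_poly {P : Polynomial ℝ} {n : ℕ} (hP : P.natDegree ≤ n) :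
    IsTrigPoly n (fun θ => P.eval (cos θ)) := by
  have hmem : P ∈ Polynomial.degreeLT ℝ (n + 1) := by
    rw [Polynomial.mem_degreeLT]
    calc P.degree ≤ (P.natDegree : WithBot ℕ) := Polynomial.degree_le_natDegree
      _ < ((n + 1 : ℕ) : WithBot ℕ) := by rw [Nat.cast_lt]; omega
  rw [← Polynomial.Sequence.span_degreeLT (Polynomial.Chebyshev.chebyshevTsequence ℝ) (by simp),
    show Set.Iio (n + 1) = Finset.range (n + 1) by simp,
    Submodule.mem_span_image_finset_iff_exists_fun'] at hmem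
  obtain ⟨c, rfl⟩ := hmem
  refine ⟨c, fun _ => 0, fun θ => ?_⟩
  simp only [Polynomial.eval_finsetSum, Polynomial.eval_smul, smul_eq_mul, zero_mul, add_zero]
  apply Finset.sum_congr rfl
  intro k _
  congr 1
  rw [show (Polynomial.Chebyshev.chebyshevTsequence ℝ) k = Polynomial.Chebyshev.T ℝ (k : ℤ) from
    rfl, Polynomial.Chebyshev.T_real_cos]
  simp

lemma abs_integral_W1_le {g : ℝ → ℝ} (hg : Continuous g) {η : ℝ}
    (h : ∀ θ, 7 / 8 < cos θ → |g θ| ≤ η) : |∫ θ in (-π)..π, g θ * W1 θ| ≤ η := by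
  have hpi := pi_pos
  have hI : IntervalIntegrable (fun θ => g θ * W1 θ) volume (-π) π :=
    W1_integrable.continuousOn_mul hg.continuousOn
  have hI2 : IntervalIntegrable (fun θ => η * W1 θ) volume (-π) π :=
    W1_integrable.const_mul η
  have e1 : ∫ θ in (-π)..π, η * W1 θ = η := by
    rw [intervalIntegral.integral_const_mul, integral_W1_one, mul_one]
  have key : ∀ θ, |g θ| * W1 θ ≤ η * W1 θ := by
    intro θ
    by_cases hc : 7 / 8 < cos θ
    · exact mul_le_mul_of_nonneg_right (h θ hc) (W1_nonneg θ)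
    · rw [W1_eq_zero (not_lt.mp hc), mul_zero, mul_zero]
  rw [abs_le]
  constructor
  · rw [← e1, ← intervalIntegral.integral_neg]
    apply intervalIntegral.integral_mono_on (by linarith) hI2.neg hI
    intro θ _
    have := key θ
    have h2 : -|g θ| * W1 θ ≤ g θ * W1 θ :=
      mul_le_mul_of_nonneg_right (neg_abs_le _) (W1_nonneg θ)
    simp only [Pi.neg_apply]
    linarith
  · rw [← e1]
    apply intervalIntegral.integral_mono_on (by linarith) hI hI2
    intro θ _
    have := key θ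
    have h2 : g θ * W1 θ ≤ |g θ| * W1 θ :=
      mul_le_mul_of_nonneg_right (le_abs_self _) (W1_nonneg θ)
    linarith

/-- Upper half of the binomial distribution, as a polynomial. -/
noncomputable def B (l : ℕ) : Polynomial ℝ :=
  ∑ k ∈ Finset.Ioc l (2 * l), Polynomial.C ((2 * l).choose k : ℝ) *
    (Polynomial.C (1 / 2) * (1 + Polynomial.X)) ^ k *
    (Polynomial.C (1 / 2) * (1 - Polynomial.X)) ^ (2 * l - k)

lemma B_natDegree (l : ℕ) : (B l).natDegree ≤ 2 * l := by
  unfold B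
  apply Polynomial.natDegree_sum_le_of_forall_le
  intro k hk
  have hk' := Finset.mem_Ioc.mp hk
  have h1 : (Polynomial.C (1 / 2) * (1 + Polynomial.X) : Polynomial ℝ).natDegree ≤ 1 := by
    compute_degree
  have h2 : (Polynomial.C (1 / 2) * (1 - Polynomial.X) : Polynomial ℝ).natDegree ≤ 1 := by
    compute_degree
  have h3 := Polynomial.natDegree_pow_le_of_le k h1
  have h4 := Polynomial.natDegree_pow_le_of_le (2 * l - k) h2
  calc _ ≤ (Polynomial.C ((2 * l).choose k : ℝ) *
    (Polynomial.C (1 / 2) * (1 + Polynomial.X)) ^ k).natDegree +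
      ((Polynomial.C (1 / 2) * (1 - Polynomial.X) : Polynomial ℝ) ^ (2 * l - k)).natDegree :=
        Polynomial.natDegree_mul_le
    _ ≤ (k * 1) + (2 * l - k) * 1 := by
        apply add_le_add _ h4
        exact (Polynomial.natDegree_C_mul_le _ _).trans h3
    _ ≤ 2 * l := by omega

lemma B_eval (l : ℕ) (x : ℝ) : (B l).eval x =
    ∑ k ∈ Finset.Ioc l (2 * l), ((2 * l).choose k : ℝ) * ((1 + x) / 2) ^ k *
      ((1 - x) / 2) ^ (2 * l - k) := by
  unfold B
  rw [Polynomial.eval_finsetSum]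
  apply Finset.sum_congr rfl
  intro k _
  simp only [Polynomial.eval_mul, Polynomial.eval_C, Polynomial.eval_pow, Polynomial.eval_add,
    Polynomial.eval_one, Polynomial.eval_X, Polynomial.eval_sub]
  ring

lemma tail_le {l : ℕ} {y z : ℝ} (hy : 0 ≤ y) (hyz : y ≤ z) (s : Finset ℕ)
    (hs : ∀ k ∈ s, l ≤ k ∧ k ≤ 2 * l) :
    ∑ k ∈ s, ((2 * l).choose k : ℝ) * y ^ k * z ^ (2 * l - k) ≤ (4 * (y * z)) ^ l := by
  have hz : 0 ≤ z := hy.trans hyz
  have h1 : ∀ k ∈ s, ((2 * l).choose k : ℝ) * y ^ k * z ^ (2 * l - k) ≤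
      ((2 * l).choose k : ℝ) * (y * z) ^ l := by
    intro k hk
    obtain ⟨hk1, hk2⟩ := hs k hk
    rw [mul_assoc]
    apply mul_le_mul_of_nonneg_left _ (by positivity)
    have e1 : y ^ k = y ^ l * y ^ (k - l) := by rw [← pow_add]; congr 1; omega
    have e2 : z ^ l = z ^ (k - l) * z ^ (2 * l - k) := by rw [← pow_add]; congr 1; omega
    rw [e1, mul_pow, e2, mul_assoc]
    apply mul_le_mul_of_nonneg_left _ (by positivity)
    apply mul_le_mul_of_nonneg_right _ (by positivity)
    exact pow_le_pow_left₀ hy hyz _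
  have h2 : (∑ k ∈ s, ((2 * l).choose k : ℝ)) ≤ 4 ^ l := by
    have h3 : ∑ k ∈ s, (2 * l).choose k ≤ ∑ k ∈ Finset.range (2 * l + 1), (2 * l).choose k := by
      apply Finset.sum_le_sum_of_subset
      intro k hk
      rw [Finset.mem_range]
      have := (hs k hk).2
      omega
    rw [Nat.sum_range_choose, pow_mul] at h3
    exact_mod_cast h3
  calc _ ≤ ∑ k ∈ s, ((2 * l).choose k : ℝ) * (y * z) ^ l := Finset.sum_le_sum h1
    _ = (∑ k ∈ s, ((2 * l).choose k : ℝ)) * (y * z) ^ l := by rw [Finset.sum_mul]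
    _ ≤ 4 ^ l * (y * z) ^ l := mul_le_mul_of_nonneg_right h2 (by positivity)
    _ = (4 * (y * z)) ^ l := (mul_pow _ _ _).symm

/-- `B l` is exponentially small on the left. -/
lemma B_left {l : ℕ} {x : ℝ} (hx1 : -1 ≤ x) (hx0 : x ≤ 0) (hx : 1 / 2 ≤ x ^ 2) :
    |(B l).eval x| ≤ (1 / 2) ^ l := by
  rw [B_eval]
  have h0 : 0 ≤ (1 + x) / 2 := by linarith
  have h1 : 0 ≤ (1 - x) / 2 := by linarith
  rw [abs_of_nonneg (Finset.sum_nonneg (fun k _ => by positivity))]
  refine (tail_le h0 (by linarith) _ (fun k hk => ?_)).trans ?_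
  · have := Finset.mem_Ioc.mp hk
    exact ⟨this.1.le, this.2⟩
  · apply pow_le_pow_left₀ (by positivity)
    nlinarith

lemma B_right {l : ℕ} {x : ℝ} (hx1 : x ≤ 1) (hx0 : 0 ≤ x) (hx : 1 / 2 ≤ x ^ 2) :
    |(B l).eval x - 1| ≤ (1 / 2) ^ l := by
  have h0 : 0 ≤ (1 + x) / 2 := by linarith
  have h1 : 0 ≤ (1 - x) / 2 := by linarith
  have hsum : ∑ k ∈ Finset.range (2 * l + 1), ((2 * l).choose k : ℝ) * ((1 + x) / 2) ^ k *
      ((1 - x) / 2) ^ (2 * l - k) = 1 := by
    have := add_pow ((1 + x) / 2) ((1 - x) / 2) (2 * l)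
    rw [show (1 + x) / 2 + (1 - x) / 2 = 1 by ring, one_pow] at this
    refine Eq.trans ?_ this.symm
    apply Finset.sum_congr rfl
    intro k _
    ring
  have hsplit : Finset.range (2 * l + 1) = Finset.range (l + 1) ∪ Finset.Ioc l (2 * l) := by
    ext k
    simp only [Finset.mem_range, Finset.mem_union, Finset.mem_Ioc]
    omega
  have hdisj : Disjoint (Finset.range (l + 1)) (Finset.Ioc l (2 * l)) := by
    rw [Finset.disjoint_left]
    intro k hk hk'
    have := Finset.mem_range.mp hk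
    have := Finset.mem_Ioc.mp hk'
    omega
  rw [hsplit, Finset.sum_union hdisj] at hsum
  rw [B_eval, abs_sub_comm]
  have e1 : 1 - ∑ k ∈ Finset.Ioc l (2 * l), ((2 * l).choose k : ℝ) * ((1 + x) / 2) ^ k *
      ((1 - x) / 2) ^ (2 * l - k) = ∑ k ∈ Finset.range (l + 1),
      ((2 * l).choose k : ℝ) * ((1 + x) / 2) ^ k * ((1 - x) / 2) ^ (2 * l - k) := by linarith
  rw [e1, abs_of_nonneg (Finset.sum_nonneg (fun k _ => by positivity))]
  -- reflect the sum
  have e2 : ∑ k ∈ Finset.range (l + 1),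
      ((2 * l).choose k : ℝ) * ((1 + x) / 2) ^ k * ((1 - x) / 2) ^ (2 * l - k) =
      ∑ k ∈ Finset.Icc l (2 * l),
      ((2 * l).choose k : ℝ) * ((1 - x) / 2) ^ k * ((1 + x) / 2) ^ (2 * l - k) := by
    apply Finset.sum_bij' (fun k _ => 2 * l - k) (fun k _ => 2 * l - k)
    · intro k hk
      have := Finset.mem_range.mp hk
      simp only [Finset.mem_Icc]
      omega
    · intro k hk
      have := Finset.mem_Icc.mp hk
      simp only [Finset.mem_range]
      omega
    · intro k hk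
      have := Finset.mem_range.mp hk
      omega
    · intro k hk
      have := Finset.mem_Icc.mp hk
      omega
    · intro k hk
      have hk' := Finset.mem_range.mp hk
      rw [Nat.choose_symm (by omega : k ≤ 2 * l), show 2 * l - (2 * l - k) = k by omega]
      ring
  rw [e2]
  refine (tail_le h1 (by linarith) _ (fun k hk => ?_)).trans ?_
  · exact Finset.mem_Icc.mp hk
  · apply pow_le_pow_left₀ (by positivity)
    nlinarith

/-- The lower bound for the glued weight. -/
theorem lower_bound {n N : ℕ} (h : HasQuadrature W3 n N) : 2 ^ (n / 2) ≤ 7 * N ^ 2 := by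
  obtain ⟨t, w, -, hq⟩ := h
  set l := n / 2 with hl
  have hln : 2 * l ≤ n := by omega
  have hs2 : 0 < √2 := by positivity
  have hs2' : √2 * √2 = 2 := mul_self_sqrt (by norm_num)
  have hs2'' : √2 < 1.415 := by
    rw [sqrt_lt' (by norm_num)]; norm_num
  -- total mass
  have hmass : w * N = 1 + √2 := by
    have h1 := hq (fun _ => 1) ⟨fun k => if k = 0 then 1 else 0, fun _ => 0, fun θ => by
      simp⟩
    simp only [one_mul] at h1
    rw [integral_W3_one] at h1
    rw [h1]
    simp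
  have hN : 0 < (N : ℝ) := by
    rcases Nat.eq_zero_or_pos N with h0 | h0
    · rw [h0] at hmass
      simp at hmass
      linarith
    · exact_mod_cast h0
  have hw : 0 < w := by
    by_contra hw
    have : w * N ≤ 0 := mul_nonpos_of_nonpos_of_nonneg (not_lt.mp hw) hN.le
    linarith
  by_cases hcase : ∃ j, cos (t j) ^ 2 ≤ 1 / 2
  · -- a node in the gap
    obtain ⟨j, hj⟩ := hcase
    have h1 := hq (fun θ => (((1 - Polynomial.X ^ 2) ^ l : Polynomial ℝ)).eval (cos θ))
      (isTrigPoly_poly (by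
        refine Polynomial.natDegree_pow_le_of_le l (m := 2) ?_ |>.trans (by omega)
        compute_degree))
    simp only [Polynomial.eval_pow, Polynomial.eval_sub, Polynomial.eval_one,
      Polynomial.eval_X] at h1
    rw [integral_W3 (fun θ => (1 - cos θ ^ 2) ^ l) (by fun_prop)
      (fun θ => by simp only [cos_add_two_pi])] at h1
    have hb : ∀ θ, 7 / 8 < cos θ → |(1 - cos θ ^ 2) ^ l| ≤ (1 / 4 : ℝ) ^ l := by
      intro θ hθ
      have h2 := cos_le_one θ
      rw [abs_of_nonneg (pow_nonneg (by nlinarith) _)]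
      apply pow_le_pow_left₀ (by nlinarith)
      nlinarith
    have h2 := abs_integral_W1_le (g := fun θ => (1 - cos θ ^ 2) ^ l) (by fun_prop) hb
    have h3 := abs_integral_W1_le (g := fun θ => (1 - cos (θ - π) ^ 2) ^ l) (by fun_prop)
      (η := (1 / 4 : ℝ) ^ l) (by
        intro θ hθ
        rw [cos_sub_pi, neg_sq]
        exact hb θ hθ)
    have h4 : w * (1 / 2 : ℝ) ^ l ≤ w * ∑ i, (1 - cos (t i) ^ 2) ^ l := by
      apply mul_le_mul_of_nonneg_left _ hw.le
      have h5 : (1 / 2 : ℝ) ^ l ≤ (1 - cos (t j) ^ 2) ^ l := by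
        apply pow_le_pow_left₀ (by norm_num)
        linarith
      refine h5.trans ?_
      apply Finset.single_le_sum (f := fun i => (1 - cos (t i) ^ 2) ^ l) (fun i _ => ?_)
        (Finset.mem_univ j)
      apply pow_nonneg
      nlinarith [cos_sq_le_one (t i)]
    rw [← h1] at h4
    have h6 : w * (1 / 2 : ℝ) ^ l ≤ (1 + √2) * (1 / 4 : ℝ) ^ l := by
      have := le_of_abs_le h2
      have := le_of_abs_le h3
      nlinarith
    have h7 : (2 : ℝ) ^ l ≤ N := by
      have e1 : (1 / 4 : ℝ) ^ l = (1 / 2) ^ l * (1 / 2) ^ l := by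
        rw [← mul_pow]; norm_num
      rw [e1, ← hmass] at h6
      have hp : (0 : ℝ) < (1 / 2) ^ l := by positivity
      have h8 : 1 ≤ N * (1 / 2 : ℝ) ^ l := by
        have h9 : w * (1 / 2 : ℝ) ^ l * 1 ≤ w * (1 / 2 : ℝ) ^ l * (N * (1 / 2 : ℝ) ^ l) := by
          linarith
        exact le_of_mul_le_mul_left h9 (by positivity)
      have e2 : (2 : ℝ) ^ l * (1 / 2) ^ l = 1 := by
        rw [← mul_pow]; norm_num
      calc (2 : ℝ) ^ l = 2 ^ l * 1 := (mul_one _).symm
        _ ≤ 2 ^ l * (N * (1 / 2 : ℝ) ^ l) := mul_le_mul_of_nonneg_left h8 (by positivity)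
        _ = N * (2 ^ l * (1 / 2) ^ l) := by ring
        _ = N := by rw [e2, mul_one]
    have h8 : 2 ^ l ≤ N := by exact_mod_cast h7
    have h9 : 1 ≤ N := by
      have : 0 < N := by exact_mod_cast hN
      omega
    nlinarith
  · -- no node in the gap
    push Not at hcase
    have h1 := hq (fun θ => (B l).eval (cos θ)) (isTrigPoly_poly ((B_natDegree l).trans hln))
    have hBc : Continuous fun θ => (B l).eval (cos θ) := (B l).continuous.comp continuous_cos
    rw [integral_W3 (fun θ => (B l).eval (cos θ)) hBc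
      (fun θ => by simp only [cos_add_two_pi])] at h1
    have h2 := abs_integral_W1_le (g := fun θ => (B l).eval (cos θ) - 1)
      (hBc.sub continuous_const) (η := (1 / 2 : ℝ) ^ l) (by
        intro θ hθ
        exact B_right (cos_le_one θ) (by linarith) (by nlinarith))
    have h3 := abs_integral_W1_le (g := fun θ => (B l).eval (cos (θ - π)))
      ((B l).continuous.comp (by fun_prop)) (η := (1 / 2 : ℝ) ^ l) (by
        intro θ hθ
        rw [cos_sub_pi]
        exact B_left (by linarith [cos_le_one θ]) (by linarith) (by nlinarith))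
    have e1 : ∫ θ in (-π)..π, ((B l).eval (cos θ) - 1) * W1 θ =
        (∫ θ in (-π)..π, (B l).eval (cos θ) * W1 θ) - 1 := by
      have : ∀ θ, ((B l).eval (cos θ) - 1) * W1 θ = (B l).eval (cos θ) * W1 θ - W1 θ := by
        intro θ; ring
      simp only [this]
      rw [intervalIntegral.integral_sub (W1_integrable.continuousOn_mul hBc.continuousOn)
        W1_integrable, integral_W1_one]
    rw [e1] at h2
    -- count nodes
    set S := Finset.univ.filter (fun j : Fin N => 0 < cos (t j)) with hS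
    set p : ℕ := S.card with hp
    have hpN : p ≤ N := by
      have := Finset.card_le_univ S
      simpa using this
    have h4 : |(∑ j, (B l).eval (cos (t j))) - p| ≤ N * (1 / 2 : ℝ) ^ l := by
      have e2 : (p : ℝ) = ∑ j : Fin N, if 0 < cos (t j) then (1 : ℝ) else 0 := by
        rw [hp, hS, Finset.card_filter]
        push_cast
        rfl
      rw [e2, ← Finset.sum_sub_distrib]
      refine (Finset.abs_sum_le_sum_abs _ _).trans ?_
      calc _ ≤ ∑ j : Fin N, (1 / 2 : ℝ) ^ l := by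
            apply Finset.sum_le_sum
            intro j _
            have hj := hcase j
            split_ifs with hc
            · exact B_right (cos_le_one _) hc.le hj.le
            · rw [sub_zero]
              exact B_left (neg_one_le_cos _) (not_lt.mp hc) hj.le
        _ = N * (1 / 2 : ℝ) ^ l := by simp
    -- combine
    set η : ℝ := (1 / 2 : ℝ) ^ l with hη
    have hηpos : 0 < η := by positivity
    set I1 := ∫ θ in (-π)..π, (B l).eval (cos θ) * W1 θ
    set I2 := ∫ θ in (-π)..π, (B l).eval (cos (θ - π)) * W1 θ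
    set Sg := ∑ j, (B l).eval (cos (t j))
    have h5 : |1 - w * p| ≤ 2 * (1 + √2) * η := by
      have a1 := abs_le.mp h2
      have a2 := abs_le.mp h3
      have a4 := abs_le.mp h4
      have b1 : w * (Sg - p) ≤ w * (N * η) := mul_le_mul_of_nonneg_left a4.2 hw.le
      have b2 : w * (-(N * η)) ≤ w * (Sg - p) := mul_le_mul_of_nonneg_left a4.1 hw.le
      have b3 : w * (N * η) = (1 + √2) * η := by rw [← mul_assoc, hmass]
      have b4 : √2 * I2 ≤ √2 * η := mul_le_mul_of_nonneg_left a2.2 hs2.le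
      have b5 : √2 * (-η) ≤ √2 * I2 := mul_le_mul_of_nonneg_left a2.1 hs2.le
      rw [abs_le]
      constructor <;> nlinarith
    -- multiply by N
    obtain ⟨q, hqN⟩ : ∃ q : ℕ, N = p + q := ⟨N - p, by omega⟩
    have hNr : (N : ℝ) = p + q := by exact_mod_cast hqN
    have h6 : |(q : ℝ) - √2 * p| ≤ 2 * (1 + √2) * η * N := by
      have e3 : (q : ℝ) - √2 * p = (1 - w * p) * N := by
        have : (1 - w * p) * N = N - (w * N) * p := by ring
        rw [this, hmass, hNr]
        ring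
      rw [e3, abs_mul, abs_of_pos hN]
      exact mul_le_mul_of_nonneg_right h5 hN.le
    have h7 : (1 : ℝ) ≤ |(q : ℝ) - √2 * p| * (q + √2 * p) := by
      have e4 : |(q : ℝ) - √2 * p| * (q + √2 * p) = |((q : ℝ) ^ 2 - 2 * p ^ 2)| := by
        have hnn : (0 : ℝ) ≤ q + √2 * p := by positivity
        have e5 : ((q : ℝ) - √2 * p) * (q + √2 * p) = q ^ 2 - (√2 * √2) * p ^ 2 := by ring
        rw [hs2'] at e5
        rw [← e5, abs_mul, abs_of_nonneg hnn]
      rw [e4]
      have hne : ((q : ℤ) ^ 2 - 2 * (p : ℤ) ^ 2) ≠ 0 := by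
        intro h0
        have hirr := irrational_sqrt_two
        have hp0 : p ≠ 0 := by
          rintro hp0
          rw [hp0] at h0
          have : (q : ℤ) = 0 := by simpa using h0
          have : q = 0 := by exact_mod_cast this
          rw [hp0, this] at hqN
          rw [hqN] at hN
          simp at hN
        have hpr : (p : ℝ) ≠ 0 := by exact_mod_cast hp0
        have h0' : (q : ℝ) ^ 2 = 2 * p ^ 2 := by
          have : ((q : ℤ) : ℝ) ^ 2 - 2 * ((p : ℤ) : ℝ) ^ 2 = 0 := by exact_mod_cast h0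
          push_cast at this
          linarith
        have h1' : √2 = q / p := by
          have : ((q : ℝ) / p) ^ 2 = 2 := by
            rw [div_pow, h0']; field_simp
          rw [← this, sqrt_sq (by positivity)]
        apply hirr
        exact ⟨(q : ℚ) / p, by push_cast; exact h1'.symm⟩
      have h8 : (1 : ℤ) ≤ |(q : ℤ) ^ 2 - 2 * (p : ℤ) ^ 2| := Int.one_le_abs hne
      have h9 : ((1 : ℤ) : ℝ) ≤ ((|(q : ℤ) ^ 2 - 2 * (p : ℤ) ^ 2| : ℤ) : ℝ) := by
        exact_mod_cast h8
      push_cast at h9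
      exact h9
    have h8 : (q : ℝ) + √2 * p ≤ √2 * N := by
      rw [hNr]
      have : (1 : ℝ) ≤ √2 := by
        rw [one_le_sqrt]; norm_num
      have hq0 : (0 : ℝ) ≤ q := by positivity
      nlinarith
    have h9 : (1 : ℝ) ≤ 7 * N ^ 2 * η := by
      calc (1 : ℝ) ≤ |(q : ℝ) - √2 * p| * (q + √2 * p) := h7
        _ ≤ (2 * (1 + √2) * η * N) * (√2 * N) :=
            mul_le_mul h6 h8 (by positivity) (by positivity)
        _ = (2 * √2 + 2 * (√2 * √2)) * (N ^ 2 * η) := by ring
        _ ≤ 7 * (N ^ 2 * η) := by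
            apply mul_le_mul_of_nonneg_right _ (by positivity)
            rw [hs2']
            linarith
        _ = 7 * N ^ 2 * η := by ring
    have h10 : (2 : ℝ) ^ l ≤ 7 * N ^ 2 := by
      have e2 : (2 : ℝ) ^ l * η = 1 := by
        rw [hη, ← mul_pow]; norm_num
      calc (2 : ℝ) ^ l = 2 ^ l * 1 := (mul_one _).symm
        _ ≤ 2 ^ l * (7 * N ^ 2 * η) := mul_le_mul_of_nonneg_left h9 (by positivity)
        _ = 7 * N ^ 2 * (2 ^ l * η) := by ring
        _ = 7 * N ^ 2 := by rw [e2, mul_one]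
    exact_mod_cast h10

lemma nodeCountBar_le {W : ℝ → ℝ} {n : ℕ} (h : ∀ N, n < N → HasQuadrature W n N) :
    nodeCountBar W n ≤ ((n + 1 : ℕ) : ℕ∞) :=
  sInf_le ⟨n + 1, rfl, fun l hl => h l hl⟩

/-- **Locality fails.**  There are `2π`-periodic weights `W₁, W₂, W` such that every real number
has a neighbourhood on which `W` agrees with `W₁` or with `W₂`, while
`\bar N^{trig}_{W_i}(n) ≤ n + 1` for `i = 1, 2` and all `n`, but every quadrature of degree `n` for
`W` with `N` nodes has `7 N ^ 2 ≥ 2 ^ ⌊n / 2⌋`; in particular for every constant `M` there is `n ≥ 1`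
with `M * max (\bar N_{W₁}(n), \bar N_{W₂}(n)) < N_W(n)`. -/
theorem result : ∃ W₁ W₂ W : ℝ → ℝ, IsWeight W₁ ∧ IsWeight W₂ ∧ IsWeight W ∧
    (∀ x : ℝ, (∀ᶠ y in 𝓝 x, W y = W₁ y) ∨ (∀ᶠ y in 𝓝 x, W y = W₂ y)) ∧
    (∀ n : ℕ, nodeCountBar W₁ n ≤ ((n + 1 : ℕ) : ℕ∞) ∧
      nodeCountBar W₂ n ≤ ((n + 1 : ℕ) : ℕ∞)) ∧
    (∀ n N : ℕ, HasQuadrature W n N → 2 ^ (n / 2) ≤ 7 * N ^ 2) ∧
    ∀ M : ℕ, ∃ n : ℕ, 1 ≤ n ∧
      (M : ℕ∞) * max (nodeCountBar W₁ n) (nodeCountBar W₂ n) < nodeCount W n := by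
  have h1 : ∀ n, nodeCountBar W1 n ≤ ((n + 1 : ℕ) : ℕ∞) := fun n =>
    nodeCountBar_le (fun N hN => hasQuadrature_W1 hN)
  have h2 : ∀ n, nodeCountBar W2 n ≤ ((n + 1 : ℕ) : ℕ∞) := fun n =>
    nodeCountBar_le (fun N hN => hasQuadrature_W2 hN)
  refine ⟨W1, W2, W3, isWeight_W1, isWeight_W2, isWeight_W3, W3_local,
    fun n => ⟨h1 n, h2 n⟩, fun n N h => lower_bound h, fun M => ?_⟩
  -- choose `n = 2 l` with `2 ^ l` large
  obtain ⟨l, hl1, hl⟩ : ∃ l : ℕ, 1 ≤ l ∧ 7 * (M * (2 * l + 1) + 1) ^ 2 < 2 ^ l := by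
    have hlim : Tendsto (fun l : ℕ => (l : ℝ) ^ 2 / 2 ^ l) atTop (𝓝 0) :=
      tendsto_pow_const_div_const_pow_of_one_lt 2 (by norm_num)
    have hev : ∀ᶠ l : ℕ in atTop, (l : ℝ) ^ 2 / 2 ^ l < 1 / (7 * (3 * (M : ℝ) + 1) ^ 2) :=
      hlim.eventually_lt_const (by positivity)
    obtain ⟨l, hl, hl1⟩ := (hev.and (eventually_ge_atTop 1)).exists
    refine ⟨l, hl1, ?_⟩
    rw [div_lt_div_iff₀ (by positivity) (by positivity), one_mul] at hl
    have hl1r : (1 : ℝ) ≤ l := by exact_mod_cast hl1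
    have h3 : (7 : ℝ) * (M * (2 * l + 1) + 1) ^ 2 ≤ l ^ 2 * (7 * (3 * M + 1) ^ 2) := by
      have h4 : (M : ℝ) * (2 * l + 1) + 1 ≤ l * (3 * M + 1) := by
        have hM : (0 : ℝ) ≤ M := by positivity
        nlinarith
      have h5 : ((M : ℝ) * (2 * l + 1) + 1) ^ 2 ≤ (l * (3 * M + 1)) ^ 2 :=
        pow_le_pow_left₀ (by positivity) h4 2
      nlinarith
    have h6 : (7 : ℝ) * (M * (2 * l + 1) + 1) ^ 2 < 2 ^ l := lt_of_le_of_lt h3 hl
    exact_mod_cast h6
  refine ⟨2 * l, by omega, ?_⟩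
  have h3 : (M : ℕ∞) * max (nodeCountBar W1 (2 * l)) (nodeCountBar W2 (2 * l)) ≤
      ((M * (2 * l + 1) : ℕ) : ℕ∞) := by
    push_cast
    have := max_le (h1 (2 * l)) (h2 (2 * l))
    push_cast at this
    gcongr
  have h4 : ((M * (2 * l + 1) + 1 : ℕ) : ℕ∞) ≤ nodeCount W3 (2 * l) := by
    apply le_sInf
    rintro _ ⟨N, rfl, hN⟩
    rw [Nat.cast_le]
    by_contra hlt
    have h5 := lower_bound hN
    rw [show 2 * l / 2 = l by omega] at h5
    have h6 : N ^ 2 ≤ (M * (2 * l + 1) + 1) ^ 2 := Nat.pow_le_pow_left (by omega) 2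
    omega
  refine lt_of_le_of_lt h3 (lt_of_lt_of_le ?_ h4)
  rw [Nat.cast_lt]
  omega

end Pool.Agent.Results.MP_c62d6e_an.Locality
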